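import Mathlib
import Pool.Agent.H.MP_70010f_co.A

namespace Pool.Agent.Results.MP_70010f_co.Yes

open Module Order
open scoped InnerProductSpace

abbrev E (n : ℕ) := EuclideanSpace ℝ (Fin n)

def Refl {n : ℕ} (W : Subgroup (E n ≃ₗᵢ[ℝ] E n)) : Set (E n ≃ₗᵢ[ℝ] E n) :=
  {t | t ∈ W ∧ ∃ v : E n, v ≠ 0 ∧ t = (ℝ ∙ v)ᗮ.reflection}

def Root {n : ℕ} (W : Subgroup (E n ≃ₗᵢ[ℝ] E n)) : Set (Set (E n)) :=
  {H | ∃ v : E n, v ≠ 0 ∧ (ℝ ∙ v)ᗮ.reflection ∈ W ∧ H = {x | 0 ≤ ⟪v, x⟫_ℝ}}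

def Y {n : ℕ} (W : Subgroup (E n ≃ₗᵢ[ℝ] E n)) : Set (Set (E n)) :=
  {X | (∃ A ⊆ Root W, X = ⋂₀ A) ∧ X ≠ {0}}

lemma same {n : ℕ} {v w : E n} (h : (ℝ ∙ v)ᗮ.reflection = (ℝ ∙ w)ᗮ.reflection) :
    ∃ c : ℝ, v = c • w := by
  have e : (ℝ ∙ v)ᗮ = (ℝ ∙ w)ᗮ := by
    ext x
    rw [← Submodule.reflection_eq_self_iff, h, Submodule.reflection_eq_self_iff]
  have : v ∈ ℝ ∙ w := by
    rw [← (ℝ ∙ w).orthogonal_orthogonal, ← e, Submodule.orthogonal_orthogonal]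
    exact Submodule.mem_span_singleton_self v
  obtain ⟨c, hc⟩ := Submodule.mem_span_singleton.1 this
  exact ⟨c, hc.symm⟩

lemma same' {n : ℕ} (w : E n) {c : ℝ} (hc : c ≠ 0) :
    (ℝ ∙ c • w)ᗮ.reflection = (ℝ ∙ w)ᗮ.reflection := by
  simp only [Submodule.span_singleton_smul_eq hc.isUnit]

theorem result (n : ℕ) (hn : 1 ≤ n) (W : Subgroup (E n ≃ₗᵢ[ℝ] E n)) [Finite W]
    (hgen : Subgroup.closure (Refl W) = W) (hess : ∀ x, (∀ w ∈ W, w x = x) → x = 0) :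
    krullDim (Y W) = (n - 1 + (Refl W).ncard : ℕ) := by
  have fin : (Refl W).Finite := (Set.toFinite (W : Set _)).subset fun t ht => ht.1
  have := fin.fintype
  choose v v0 hv using fun t : Refl W => t.2.2
  have m := Pool.Agent.H.MP_70010f_co.main (fun t : Refl W => innerₗ (E n) (v t)) (fun x hx => by
    refine hess x fun w hw => ?_
    rw [← hgen] at hw
    induction hw using Subgroup.closure_induction with
    | mem t ht =>
      have := hv ⟨t, ht⟩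
      simp only at this
      rw [this, Submodule.reflection_eq_self_iff, Submodule.mem_orthogonal_singleton_iff_inner_right]
      exact hx _
    | one => rfl
    | mul a b _ _ ha hb => simp [ha, hb]
    | inv a _ ha => exact a.symm_apply_eq.2 ha.symm) (by simp; omega)
    (fun t h => v0 t (inner_self_eq_zero.1 congr($h (v t)))) (fun s t c h => by
      have e : v s = c • v t := ext_inner_right ℝ fun x => by
        rw [real_inner_smul_left]
        exact congr($h x)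
      have c0 : c ≠ 0 := fun k => v0 s (by rw [e, k, zero_smul])
      exact Subtype.ext (by rw [hv s, hv t, e, same' _ c0]))
  rw [finrank_euclideanSpace_fin, ← Set.toFinset_card, ← Set.ncard_eq_toFinset_card'] at m
  rw [← m]
  have e : Y W = {X | Pool.Agent.H.MP_70010f_co.P (fun t : Refl W => innerₗ (E n) (v t)) X} := by
    ext X
    refine and_congr_left fun _ => ⟨?_, ?_⟩
    · rintro ⟨A, hA, rfl⟩
      refine ⟨{g | (∃ t, ∃ c : ℝ, c ≠ 0 ∧ g = c • innerₗ (E n) (v t)) ∧ {x | 0 ≤ g x} ∈ A},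
        fun g hg => hg.1, ?_⟩
      ext x
      refine ⟨fun h g hg => h _ hg.2, fun h H hH => ?_⟩
      obtain ⟨u, u0, hu, rfl⟩ := hA hH
      obtain ⟨c, hc⟩ := same (hv ⟨_, hu, u, u0, rfl⟩)
      refine h (innerₗ (E n) u) ⟨⟨⟨_, hu, u, u0, rfl⟩, c, fun k => u0 (by rw [hc, k, zero_smul]),
        ?_⟩, hH⟩
      rw [← map_smul, ← hc]
    · rintro ⟨A, hA, rfl⟩
      refine ⟨(fun g => {x | 0 ≤ g x}) '' A, ?_, by ext x; simp⟩
      rintro _ ⟨g, hg, rfl⟩
      obtain ⟨t, c, hc, rfl⟩ := hA g hg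
      refine ⟨c • v t, smul_ne_zero hc (v0 t), by rw [same' _ hc, ← hv t]; exact t.2.1, ?_⟩
      simp [real_inner_smul_left]
  rw [e]
  rfl

end Pool.Agent.Results.MP_70010f_co.Yes
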